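import Pool.Agent.H92.SG.Stmts

/-!
MP_046772_gt, board `sg7`, module SUB: subadditivity and an a priori bound.
-/

namespace Pool.Agent.H68.SG

open Pool.Agent.H92.SG

theorem sh_mem {n : ℕ} {x : B} (hx : x ∈ Bn n) : sh x ∈ Bn (n + 1) := by
  refine Bn_induction (p := fun x => sh x ∈ Bn (n + 1)) ?_ ?_ ?_ ?_ hx
  · rw [map_one]; exact Subgroup.one_mem _
  · intro i hi; rw [sh_σ]; exact σ_mem_Bn (by omega)
  · intro x _ y _ h h'; rw [map_mul]; exact Subgroup.mul_mem _ h h'
  · intro x _ h; rw [map_inv]; exact Subgroup.inv_mem _ h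

theorem shi_mem {n : ℕ} {x : B} (k : ℕ) (hx : x ∈ Bn n) : (sh^[k]) x ∈ Bn (n + k) := by
  induction k with
  | zero => exact hx
  | succ k ih => rw [Function.iterate_succ_apply']; exact sh_mem ih

theorem shi_mul (k : ℕ) (x y : B) : (sh^[k]) (x * y) = (sh^[k]) x * (sh^[k]) y := by
  induction k with
  | zero => rfl
  | succ k ih => rw [Function.iterate_succ_apply', Function.iterate_succ_apply',
      Function.iterate_succ_apply', ih, map_mul]

theorem shi_one (k : ℕ) : (sh^[k]) (1 : B) = 1 := by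
  induction k with
  | zero => rfl
  | succ k ih => rw [Function.iterate_succ_apply', ih, map_one]

theorem β77_mem : β77 ∈ Bn 4 := by
  have h0 : σ 0 ∈ Bn 4 := σ_mem_Bn (by norm_num)
  have h1 : σ 1 ∈ Bn 4 := σ_mem_Bn (by norm_num)
  have h2 : σ 2 ∈ Bn 4 := σ_mem_Bn (by norm_num)
  unfold β77
  exact mul_mem (mul_mem (mul_mem (mul_mem (mul_mem (mul_mem (inv_mem h0) h1) (inv_mem h0)) h1)
    (inv_mem h2)) h1) (inv_mem h2)

theorem nfold_mem (n : ℕ) : nfold 4 β77 n ∈ Bn (3 * n + 1) := by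
  induction n with
  | zero => exact Subgroup.one_mem _
  | succ n ih =>
    refine mul_mem (Bn_mono (by omega) ih) ?_
    have := shi_mem (n * (4 - 1)) β77_mem
    exact Bn_mono (by omega) this

theorem nfold_add (m n : ℕ) :
    nfold 4 β77 (m + n) = nfold 4 β77 m * (sh^[3 * m]) (nfold 4 β77 n) := by
  induction n with
  | zero =>
    change nfold 4 β77 m = nfold 4 β77 m * (sh^[3 * m]) 1
    rw [shi_one, mul_one]
  | succ n ih =>
    change nfold 4 β77 (m + n) * (sh^[(m + n) * (4 - 1)]) β77 =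
      nfold 4 β77 m * (sh^[3 * m]) (nfold 4 β77 n * (sh^[n * (4 - 1)]) β77)
    rw [ih, shi_mul, ← Function.iterate_add_apply, mul_assoc]
    congr 4
    omega

theorem band_σ {n i : ℕ} (h : i + 1 < n) : IsBand n (σ i) :=
  ⟨1, Subgroup.one_mem _, i, h, Or.inl (by simp)⟩

theorem band_σ_inv {n i : ℕ} (h : i + 1 < n) : IsBand n (σ i)⁻¹ :=
  ⟨1, Subgroup.one_mem _, i, h, Or.inr (by simp)⟩

theorem surf_one : Surf 1 1 0 := by
  refine ⟨0, [], by simp, by simp, by simp, ?_⟩
  intro S h0 _ i hi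
  obtain rfl : i = 0 := by omega
  exact h0

theorem surf_β77 : Surf 4 β77 4 := by
  refine ⟨0, [(σ 0)⁻¹, σ 1, (σ 0)⁻¹, σ 1, (σ 2)⁻¹, σ 1, (σ 2)⁻¹], ?_, ?_, by simp, ?_⟩
  · intro x hx
    simp only [List.mem_cons, List.not_mem_nil, or_false] at hx
    rcases hx with rfl | rfl | rfl | rfl | rfl | rfl | rfl
    · exact band_σ_inv (by norm_num)
    · exact band_σ (by norm_num)
    · exact band_σ_inv (by norm_num)
    · exact band_σ (by norm_num)
    · exact band_σ_inv (by norm_num)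
    · exact band_σ (by norm_num)
    · exact band_σ_inv (by norm_num)
  · simp [β77, mul_assoc]
  · intro S h0 hS
    have e1 : (1 : ℕ) ∈ S := by
      have := hS (σ 0)⁻¹ (by simp) 0 h0
      rw [map_inv, perm_σ] at this
      simpa using this
    have e2 : (2 : ℕ) ∈ S := by
      have := hS (σ 1) (by simp) 1 e1
      rw [perm_σ] at this
      simpa using this
    have e3 : (3 : ℕ) ∈ S := by
      have := hS (σ 2)⁻¹ (by simp) 2 e2
      rw [map_inv, perm_σ] at this
      simpa using this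
    intro i hi
    have : i = 0 ∨ i = 1 ∨ i = 2 ∨ i = 3 := by omega
    rcases this with rfl | rfl | rfl | rfl
    · exact h0
    · exact e1
    · exact e2
    · exact e3

theorem SUB_thm (hSSUM : SurfSumStmt) : SubStmt := by
  have key : ∀ m n e₁ e₂ : ℕ, Surf (3 * m + 1) (nfold 4 β77 m) e₁ →
      Surf (3 * n + 1) (nfold 4 β77 n) e₂ →
      Surf (3 * (m + n) + 1) (nfold 4 β77 (m + n)) (e₁ + e₂) := by
    intro m n e₁ e₂ h₁ h₂
    have := hSSUM (3 * m) (3 * n) _ _ e₁ e₂ (nfold_mem m) (nfold_mem n) h₁ h₂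
    rw [← nfold_add, show 3 * m + 3 * n + 1 = 3 * (m + n) + 1 by ring] at this
    exact this
  have hA : ∀ n, Surf (3 * n + 1) (nfold 4 β77 n) (2 * (2 * n)) := by
    intro n
    induction n with
    | zero => exact surf_one
    | succ n ih =>
      have h1 : nfold 4 β77 1 = β77 := by
        change 1 * β77 = β77
        rw [one_mul]
      have := key n 1 (2 * (2 * n)) 4 ih (by rw [h1]; exact surf_β77)
      rw [show 2 * (2 * n) + 4 = 2 * (2 * (n + 1)) by ring] at this
      exact this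
  refine ⟨hA, ?_⟩
  intro m n
  have hm : g4 (3 * m + 1) (nfold 4 β77 m) ∈ {g | Surf (3 * m + 1) (nfold 4 β77 m) (2 * g)} :=
    Nat.sInf_mem ⟨2 * m, hA m⟩
  have hn : g4 (3 * n + 1) (nfold 4 β77 n) ∈ {g | Surf (3 * n + 1) (nfold 4 β77 n) (2 * g)} :=
    Nat.sInf_mem ⟨2 * n, hA n⟩
  have := key m n _ _ hm hn
  rw [← Nat.mul_add] at this
  exact Nat.sInf_le this

end Pool.Agent.H68.SG
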